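import Pool.Agent.W498.Dom.Defs
import Pool.Agent.J4H44.BM.SecDefs
import Pool.Agent.H447R3.KuDefs

/-!
# The variational Tate conjecture: definitions
-/

set_option autoImplicit false

open CategoryTheory AlgebraicGeometry

universe u v

namespace Pool.Agent.J4H12.VT

open Pool.Agent.H914 VarClass Obj WeilCohomology Pool.Agent.H447 Pool.Agent.J4H44.BM
  Pool.Agent.W498.Dom

section Alg

variable {K : Type*} [Field K] {A B C E : Type*} [Ring A] [Algebra K A] [Ring B] [Algebra K B]
  [Ring C] [Algebra K C] [Ring E] [Algebra K E] {ι κ : Type*}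

/-- For `i ≤ N` the operator `T` is annihilated on `gr i` by a polynomial `P i` with rational
coefficients, and these polynomials are pairwise coprime. -/
def CoprimeWeights [CharZero K] (gr : ℕ → Submodule K A) (N : ℕ) (T : A →ₐ[K] A) : Prop :=
  ∃ P : ℕ → Polynomial ℚ, (∀ i ≤ N, ∀ j ≤ N, i ≠ j → IsCoprime (P i) (P j)) ∧
    ∀ i ≤ N, ∀ a ∈ gr i, Polynomial.aeval T.toLinearMap ((P i).map (algebraMap ℚ K)) a = 0

/-- If `x` is in the image of `f` then `x = f (cl z)` for some `z` with `P z`. -/
def LiftsTo (f : B →ₐ[K] A) (P : ι → Prop) (cl : ι → B) (x : A) : Prop :=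
  (∃ y, f y = x) → ∃ z, P z ∧ f (cl z) = x

/-- Every element of `S` in the image of `f` is in the image of `S'`. -/
def SpanLifts (f : B →ₐ[K] A) (S : Submodule K A) (S' : Submodule K B) : Prop :=
  ∀ y, f y ∈ S → ∃ z ∈ S', f z = f y

/-- The map `s` satisfies `f s f = f`. -/
def Splits (f : B →ₐ[K] A) (s : A →ₗ[K] B) : Prop := ∀ y, f (s (f y)) = f y

/-- The operator `p` is the identity on the image of `f` and zero on its orthogonal complement. -/
def IsOrthProj (f : B →ₐ[K] A) (tr : A →ₗ[K] K) (p : A →ₗ[K] A) : Prop :=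
  (∀ y, p (f y) = f y) ∧ ∀ x, (∀ y, tr (x * f y) = 0) → p x = 0

/-- The map `f` kills the elements which are killed by `ξ ^ r`. -/
def KillsKilled (ξ : A) (r : ℕ) (f : A →ₐ[K] B) : Prop := ∀ y, ξ ^ r * y = 0 → f y = 0

/-- Every element `g (f (cl z))` with `P z` is `a δ + f' (cl' w)` for some rational number `a` and
some `w` with `P' w`. -/
def FormOfRestrictions (δ : C) (P : ι → Prop) (cl : ι → A) (f : A →ₐ[K] B) (g : B →ₗ[K] C)
    (P' : κ → Prop) (cl' : κ → E) (f' : E →ₐ[K] C) : Prop :=
  ∀ z, P z → ∃ (a : ℚ) (w : κ), P' w ∧ g (f (cl z)) = (a : K) • δ + f' (cl' w)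

end Alg

variable {k : Type u} [Field k] {𝒱 : VarClass k} {ops : CycleOps 𝒱}

/-- `X` has an endomorphism which acts on the spaces `H^i(X)` with rational characteristic
polynomials without common zeros. The example is the Frobenius endomorphism of a variety which is
defined over a finite field with `q` elements: its eigenvalues on `H^i(X)` have the absolute value
`q ^ (i / 2)`. -/
def HasFrobenius (W : WeilCohomology.{u, v} ops) (X : 𝒱.Obj) : Prop :=
  ∃ f : X ⟶ X, CoprimeWeights (W.gr X) (2 * X.dim) (W.map f)

/-- Every cycle of codimension `q` on `F`, with rational coefficients, whose class is the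
restriction of some cohomology class on `Y`, is homologically equivalent to the restriction of a
cycle on `Y`. -/
def CyclesExtendQ (W : WeilCohomology.{u, v} ops) {F Y : 𝒱.Obj} (j : F ⟶ Y) (q : ℕ) : Prop :=
  ∀ c, F.IsCyc q c → LiftsTo (W.map j) (Y.IsCyc q) (W.cl Y) (W.cl F c)

/-- Every `K`-linear combination of classes of cycles of codimension `q` on `F` which is the
restriction of some cohomology class on `Y` is the restriction of a `K`-linear combination of
classes of cycles on `Y`, where `K` is the coefficient field of `W`. -/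
def CyclesExtendK (W : WeilCohomology.{u, v} ops) {F Y : 𝒱.Obj} (j : F ⟶ Y) (q : ℕ) : Prop :=
  SpanLifts (W.map j) (spanCycles W F q) (spanCycles W Y q)

/-- There is a cycle on `F × Y`, with rational coefficients, which induces a splitting of the
restriction `H(Y) → H(F)`: its action `s : H(F) → H(Y)` (of degree zero) satisfies
`j^* s j^* = j^*`. -/
def SplitQ (W : WeilCohomology.{u, v} ops) {F Y : 𝒱.Obj} (j : F ⟶ Y) : Prop :=
  ∃ c, (F.prod Y).IsCyc F.dim c ∧ Splits (W.map j) (W.corr (W.cl (F.prod Y) c))

/-- There is a cycle on `F × F`, with rational coefficients, which induces the orthogonal projector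
onto the image of the restriction `H(Y) → H(F)`. -/
def InvariantsQ (W : WeilCohomology.{u, v} ops) {F Y : 𝒱.Obj} (j : F ⟶ Y) : Prop :=
  ∃ c, (F.prod F).IsCyc F.dim c ∧ IsOrthProj (W.map j) (W.tr F) (W.corr (W.cl (F.prod F) c))

/-- `Z`, with the morphism `φ` to `X`, looks for the theory `W` like a smooth complete intersection
of `X` with divisors of large degree which are multiples of the ample divisor `D`. -/
structure IsSection (W : WeilCohomology.{u, v} ops) {X Z : 𝒱.Obj} (φ : Z ⟶ X) (D : X.Cycles) :
    Prop where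
  /-- the codimension is positive -/
  lt : Z.dim < X.dim
  /-- the class of `Z` in `H(X)` is a nonzero multiple of the power of the class of `D` -/
  cls : IsRatPower W.K (W.cl X (ops.push φ Z.V.fundCycle)) (W.cl X D) (X.dim - Z.dim)
  /-- weak Lefschetz: injectivity -/
  inj : InjBelow (W.gr X) Z.dim (W.map φ)
  /-- weak Lefschetz: surjectivity -/
  surj : SurjBelow (W.gr X) (W.gr Z) Z.dim (W.map φ)
  /-- there is vanishing cohomology: the push-forward is not injective on the middle cohomology -/
  van : NotInjOn (W.gr Z Z.dim) (W.push φ)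

/-- Let `Z` be a section of `X`, a smooth member `Z = Z(s)` of a system of complete intersections with
the parameter space `B`. The varieties `F` and `Y` in this definition look like the blow-up `F` of
`Z × Z` along the diagonal, with the morphism `b` to `Z × Z`, and like the variety `Y` of the pairs
`(ζ, t)` of a point `ζ` of the blow-up of `X × X` along the diagonal and of a point `t` of `B` such
that the subscheme of length two given by `ζ` lies in `Z(t)`. The fibre of `Y` over `s` is `F`, and
`Y` is a bundle of products of projective spaces over the blow-up of `X × X`; so the cycles on `Y` in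
question restrict on `F` to cycles which come from `X × X`, up to cycles with support on the
exceptional divisor. -/
structure SquareFamily (W : WeilCohomology.{u, v} ops) {X Z F Y : 𝒱.Obj} (φ : Z ⟶ X)
    (b : F ⟶ Z.prod Z) (j : F ⟶ Y) (g : Y ⟶ X.prod X) : Prop where
  /-- the square commutes -/
  comm : j ≫ g = b ≫ sqMap φ
  /-- the morphism `b` is birational -/
  birat : W.push b 1 = 1
  /-- for a cycle on `Y` of codimension `dim Z`, the direct image on `Z × Z` of its restriction to `F`
  is the sum of a multiple of the diagonal and of the restriction of a cycle on `X × X` -/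
  spread : FormOfRestrictions (W.cl (Z.prod Z) (diagCyc ops Z)) (Y.IsCyc Z.dim) (W.cl Y)
    (W.map j) (W.push b) ((X.prod X).IsCyc Z.dim) (W.cl (X.prod X)) (W.map (sqMap φ))

/-- For all `m < dim X` the variety `Z m` is a section of dimension `2 m + 1` of `X × X`; it has a
Frobenius endomorphism, or at least its Künneth component in degree `2 m` is algebraic. -/
def OddSections (W : WeilCohomology.{u, v} ops) (X : 𝒱.Obj) (D : X.Cycles) (Z : ℕ → 𝒱.Obj)
    (φ : ∀ m, Z m ⟶ X.prod X) : Prop :=
  ∀ m < X.dim, (Z m).dim = 2 * m + 1 ∧ IsSection W (φ m) (boxCyc ops D D) ∧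
    (HasFrobenius W (Z m) ∨ KunnethAt W (Z m) (2 * m))

/-- For all `m < dim X` the variety `Y m` is a family for the square of `Z m`, with the fibre
`F m`. -/
def SquareFamilies (W : WeilCohomology.{u, v} ops) (X : 𝒱.Obj) {Z : ℕ → 𝒱.Obj}
    (φ : ∀ m, Z m ⟶ X.prod X) (F Y : ℕ → 𝒱.Obj) (b : ∀ m, F m ⟶ (Z m).prod (Z m))
    (j : ∀ m, F m ⟶ Y m) (g : ∀ m, Y m ⟶ (X.prod X).prod (X.prod X)) : Prop :=
  ∀ m < X.dim, SquareFamily W (φ m) (b m) (j m) (g m)

/-- `F` is a general fibre of the family `f : Y ⟶ B`, with the inclusion `j`. The decomposition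
theorem and the relative hard Lefschetz theorem of Beilinson, Bernstein, Deligne and Gabber hold for
`f`, with the divisor `D` on `B` and the divisor `E` on `Y`. The dimension of `F` is
`dim Y - dim B`, up to a nonzero rational number the class of `F` on `Y` is the inverse image of the
top power of the class of `D`, and a class on `Y` whose product with the class of `F` is zero
restricts to zero on `F`. (The last property holds in the `ℓ`-adic theory for every fibre over a point
over which `f` is smooth: the image of `H(Y)` in `H(F)` is the space of the invariants of the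
fundamental group, on which the intersection form is nondegenerate by the semisimplicity theorem
of Deligne.) -/
structure IsFamily (W : WeilCohomology.{u, v} ops) {F Y B : 𝒱.Obj} (j : F ⟶ Y) (f : Y ⟶ B)
    (D : B.Cycles) (E : Y.Cycles) : Prop where
  divB : B.IsCyc 1 D
  divY : Y.IsCyc 1 E
  perv : Nonempty (PerverseDecomposition W f D E)
  dim : Y.dim = B.dim + F.dim
  cls : IsRatPower W.K (W.cl Y (ops.push j F.V.fundCycle)) (W.map f (W.cl B D)) B.dim
  ker : KillsKilled (W.map f (W.cl B D)) B.dim (W.map j)

/-- The variety `X`, with some divisor, belongs to the class `Pol`. -/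
def InClass (Pol : ∀ X : 𝒱.Obj, X.Cycles → Prop) (X : 𝒱.Obj) : Prop := ∃ D, Pol X D

/-- The statement `S` holds for the general fibres `j : F ⟶ Y` of all families with total space `Y`
in the class `Pol`. -/
def ForFibres (W : WeilCohomology.{u, v} ops) (Pol : ∀ X : 𝒱.Obj, X.Cycles → Prop)
    (S : ∀ F Y : 𝒱.Obj, (F ⟶ Y) → Prop) : Prop :=
  ∀ (F Y B : 𝒱.Obj) (j : F ⟶ Y) (f : Y ⟶ B) (D : B.Cycles) (E : Y.Cycles),
    InClass Pol Y → IsFamily W j f D E → S F Y j

/-- The statement `S` holds for the squares `Z × Z ⟶ X × X` of all sections `Z ⟶ X` of odd dimension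
of members of `Pol`. -/
def ForSquares (W : WeilCohomology.{u, v} ops) (Pol : ∀ X : 𝒱.Obj, X.Cycles → Prop)
    (S : ∀ F Y : 𝒱.Obj, (F ⟶ Y) → Prop) : Prop :=
  ∀ (X : 𝒱.Obj) (D : X.Cycles), Pol X D → ∀ (Z : 𝒱.Obj) (φ : Z ⟶ X), InClass Pol Z →
    Odd Z.dim → IsSection W φ D → S (Z.prod Z) (X.prod X) (sqMap φ)

/-- There are a member `Z` of `Pol` of dimension `n` which is a section of `X`, and a family in `Pol`
for its square. -/
def HasSection (W : WeilCohomology.{u, v} ops) (Pol : ∀ X : 𝒱.Obj, X.Cycles → Prop) (X : 𝒱.Obj)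
    (D : X.Cycles) (n : ℕ) : Prop :=
  ∃ (Z F Y B : 𝒱.Obj) (φ : Z ⟶ X) (b : F ⟶ Z.prod Z) (j : F ⟶ Y) (g : Y ⟶ X.prod X)
    (f : Y ⟶ B) (D' : B.Cycles) (E : Y.Cycles), Z.dim = n ∧ InClass Pol Z ∧ IsSection W φ D ∧
      SquareFamily W φ b j g ∧ InClass Pol Y ∧ IsFamily W j f D' E

/-- `Pol` is a class of pairs of a variety and a divisor with hard Lefschetz (for example the ample
ones), closed under products, whose members have Frobenius endomorphisms and sections of all odd
dimensions `n < dim X`; the squares of these sections move in families with total space in the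
class. The example is the class of all polarised smooth projective varieties over the algebraic
closure of a finite field. -/
structure FrobeniusClass (W : WeilCohomology.{u, v} ops) (Pol : ∀ X : 𝒱.Obj, X.Cycles → Prop) :
    Prop where
  div : ∀ (X : 𝒱.Obj) (D : X.Cycles), Pol X D → X.IsCyc 1 D
  hard : ∀ (X : 𝒱.Obj) (D : X.Cycles), Pol X D → HardLefschetz W X D
  prod : ∀ (X : 𝒱.Obj) (D : X.Cycles) (Y : 𝒱.Obj) (E : Y.Cycles), Pol X D → Pol Y E →
    Pol (X.prod Y) (boxCyc ops D E)
  frob : ∀ (X : 𝒱.Obj) (D : X.Cycles), Pol X D → HasFrobenius W X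
  sec : ∀ (X : 𝒱.Obj) (D : X.Cycles), Pol X D → ∀ n, Odd n → n < X.dim → HasSection W Pol X D n

/-- The statement `S` holds for all the varieties of the class `Pol`. -/
def ForAllOf (Pol : ∀ X : 𝒱.Obj, X.Cycles → Prop) (S : ∀ X : 𝒱.Obj, X.Cycles → Prop) : Prop :=
  ∀ (X : 𝒱.Obj) (D : X.Cycles), Pol X D → S X D

end Pool.Agent.J4H12.VT
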