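import Pool.Agent.J4H12.VT.Left

/-!
# Left inverses from the form of the Künneth components
-/

set_option autoImplicit false

open CategoryTheory AlgebraicGeometry Finset

universe u v

namespace Pool.Agent.J4H12.VT

open Pool.Agent.H914 Pool.Agent.H447 Pool.Agent.W498.Dom VarClass Obj WeilCohomology
  Pool.Agent.J4H44.BM Pool.Agent.W534

variable {k : Type u} [Field k] {𝒱 : VarClass k} {ops : CycleOps 𝒱}
  {W : WeilCohomology.{u, v} ops} {X Y Z F : 𝒱.Obj} {φ : Z ⟶ X} {D : X.Cycles}

lemma kop_mem {d : ℤ} {T : W.H X →ₗ[W.K] W.H Y} (hT : T ∈ KOp W X Y d) {i l : ℕ} {a : W.H X}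
    (ha : a ∈ W.gr X i) (hij : (l : ℤ) = i + 2 * d) : T a ∈ W.gr Y l := by
  have h := KOp.isHom hT i a (by rw [grZ_natCast]; exact ha)
  rwa [← hij, grZ_natCast] at h

/-- The scalar in the form is zero. -/
lemma HasForm.eq {i : ℕ} {w : Module.End W.K (W.H X)} (h : HasForm W φ i w)
    (S : IsSection W φ D) (hi : i < Z.dim) :
    proj (W.isInternal Z) i = (W.map φ).toLinearMap ∘ₗ w ∘ₗ W.push φ := by
  obtain ⟨a, hπ⟩ := h
  obtain ⟨v, hv, hv0, hjv⟩ := S.van
  have ha : a = 0 := by
    have h1 := congrArg (fun F => F v) hπ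
    simp only [LinearMap.add_apply, LinearMap.comp_apply, LinearMap.smul_apply, hjv, map_zero,
      add_zero, Module.End.one_apply] at h1
    rw [proj_ne _ hv (by omega)] at h1
    exact (smul_eq_zero.1 h1.symm).resolve_right hv0
  rw [hπ, ha, zero_smul, zero_add]

lemma HasForm.key {i : ℕ} {w : Module.End W.K (W.H X)} (h : HasForm W φ i w)
    (S : IsSection W φ D) (hD : X.IsCyc 1 D) (hi : i < Z.dim)
    (hw : w ∈ KOp W X X ((Z.dim : ℤ) - X.dim)) {m : ℚ}
    (hpm : ∀ a, W.push φ (W.map φ a) = (m : W.K) • (W.cl X D ^ (X.dim - Z.dim) * a))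
    {l : ℕ} (hl : l < Z.dim) {x : W.H X} (hx : x ∈ W.gr X l) :
    (m : W.K) • w (W.cl X D ^ (X.dim - Z.dim) * x) = if l = i then x else 0 := by
  have hlt := S.lt
  have hπ := h.eq S hi
  have h1 := congrArg (fun F => F (W.map φ x)) hπ
  simp only [LinearMap.comp_apply, AlgHom.toLinearMap_apply] at h1
  rw [hpm, map_smul, map_smul] at h1
  have h2 : w (W.cl X D ^ (X.dim - Z.dim) * x) ∈ W.gr X l := kop_mem hw (lop_mem hD hx) (by omega)
  have h3 : proj (W.isInternal Z) i (W.map φ x) = W.map φ (if l = i then x else 0) := by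
    split_ifs with hli
    · subst hli; rw [proj_same _ (W.map_mem φ hx)]
    · rw [proj_ne _ (W.map_mem φ hx) hli, map_zero]
  have h4 : (if l = i then x else 0) ∈ W.gr X l := by
    split_ifs
    · exact hx
    · exact Submodule.zero_mem _
  have h5 := S.inj l hl _ (Submodule.sub_mem _ (Submodule.smul_mem _ (m : W.K) h2) h4) (by
    rw [map_sub, ← h3, h1, map_smul, sub_self])
  exact sub_eq_zero.1 h5

/-- A left inverse with coefficients. -/
theorem HasForm.leftInvK {i : ℕ} {w : Module.End W.K (W.H X)} (h : HasForm W φ i w)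
    (S : IsSection W φ D) (hD : X.IsCyc 1 D) (hi : i < Z.dim)
    (hw : w ∈ KOp W X X ((Z.dim : ℤ) - X.dim)) : LeftInvK W X D i (X.dim - Z.dim) := by
  have hlt := S.lt
  obtain ⟨m, hm, hpm⟩ := S.push_map
  rw [leftInvK_iff (Nat.sub_le _ _)]
  refine ⟨(m : W.K) • w, Submodule.smul_mem _ _ (KOp.cast hw (by omega)), fun a ha => ?_⟩
  rw [lop_pow_apply, LinearMap.smul_apply, h.key S hD hi hw hpm hi ha, if_pos rfl]

/-- A rational left inverse and a Künneth component. -/
theorem HasForm.rational {i : ℕ} {w : Module.End W.K (W.H X)} (h : HasForm W φ i w)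
    (S : IsSection W φ D) (hD : X.IsCyc 1 D) (hi : i < Z.dim)
    (hw : QOp W X X ((Z.dim : ℤ) - X.dim) w) :
    KunnethAt W X i ∧ LeftInvAlg W X D i (X.dim - Z.dim) := by
  have hlt := S.lt
  have hOA := rop_opAlg (W := W) (X := X)
  obtain ⟨m, hm, hpm⟩ := S.push_map
  have hmK : (m : W.K) ≠ 0 := by exact_mod_cast hm
  have hπ := h.eq S hi
  set r := X.dim - Z.dim with hr
  set w' : Module.End W.K (W.H X) := (m : W.K) • w with hw'
  have hw'q : QOp W X X ((Z.dim : ℤ) - X.dim) w' := hw.smul m
  have key : ∀ l < Z.dim, ∀ x ∈ W.gr X l, w' (W.cl X D ^ r * x) = if l = i then x else 0 := by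
    intro l hl x hx
    exact h.key S hD hi hw.kop hpm hl hx
  constructor
  · -- the square of `w' L ^ r` is the projector
    set u : Module.End W.K (W.H X) := w' * lop W X D ^ r with hu
    have huR : ROp W X 0 u :=
      hOA.cast (hOA.mul (rop_iff.2 hw'q) (lop_rop (W := W) hD r)) (by omega)
    have huu : u * u = proj (W.isInternal X) i := by
      have e2 : ∀ y, (m : W.K) • u y = w' (W.push φ (W.map φ y)) := by
        intro y
        rw [hu, Module.End.mul_apply, lop_pow_apply, hpm, map_smul]
      have e5 : ∀ y, (m : W.K) • u (u y) =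
          w' (W.push φ (proj (W.isInternal Z) i (W.map φ y))) := by
        intro y
        have e3 : W.map φ (w' (W.push φ (W.map φ y))) =
            (m : W.K) • proj (W.isInternal Z) i (W.map φ y) := by
          rw [hw', LinearMap.smul_apply, map_smul]
          congr 1
          exact (congrArg (fun F => F (W.map φ y)) hπ).symm
        have e4 : (m : W.K) • (m : W.K) • u (u y) =
            (m : W.K) • w' (W.push φ (proj (W.isInternal Z) i (W.map φ y))) := by
          rw [← map_smul u, e2, e2, e3, map_smul, map_smul]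
        exact smul_right_injective _ hmK e4
      apply gr_ext (W.isInternal X)
      intro l x hx
      rw [Module.End.mul_apply]
      by_cases hl : l = i
      · subst hl
        have h1 : u x = x := by
          rw [hu, Module.End.mul_apply, lop_pow_apply, key l hi x hx, if_pos rfl]
        rw [h1, h1, proj_same _ hx]
      · rw [proj_ne _ hx hl]
        apply smul_right_injective _ hmK
        simp only
        rw [e5, proj_ne _ (W.map_mem φ hx) hl, map_zero, map_zero, smul_zero]
    rw [kunnethAt_iff, ← huu]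
    exact hOA.cast (hOA.mul huR huR) (by ring)
  · rw [Pool.Agent.J4H44.BM.leftInv_iff (by omega)]
    refine ⟨w', hw'q.cast (by omega), fun x hx => ?_⟩
    rw [key i hi x hx, if_pos rfl]

end Pool.Agent.J4H12.VT
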