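import Pool.Agent.J4H12.VT.Defs
import Pool.Agent.J4H44.BM.Sq

/-!
# The argument of Katz and Messing
-/

set_option autoImplicit false

open CategoryTheory AlgebraicGeometry Finset

universe u v

namespace Pool.Agent.J4H12.VT

open Pool.Agent.H914 Pool.Agent.H447 Pool.Agent.W498.Dom VarClass Obj WeilCohomology
  Pool.Agent.J4H44.BM Pool.Agent.W534 Polynomial

variable {k : Type u} [Field k] {𝒱 : VarClass k} {ops : CycleOps 𝒱}
  {W : WeilCohomology.{u, v} ops} {X Y F : 𝒱.Obj}

lemma rop_ev {T : Module.End W.K (W.H X)} (hT : ROp W X 0 T) (p : ℚ[X]) :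
    ROp W X 0 (ev T p) := by
  have hOA := rop_opAlg (W := W) (X := X)
  induction p using Polynomial.induction_on' with
  | add p q hp hq => rw [map_add]; exact hOA.add hp hq
  | monomial n a =>
    rw [← C_mul_X_pow_eq_monomial, map_mul, ev_C, map_pow, ev_X, smul_mul_assoc, one_mul]
    exact hOA.smul a (hOA.cast (hOA.pow hT n) (by ring))

/-- **Katz and Messing.** -/
theorem kunneth_of_frobenius (h : HasFrobenius W X) : KunnethStd W X := by
  obtain ⟨f, P, hcop, hann⟩ := h
  set T : Module.End W.K (W.H X) := (W.map f).toLinearMap with hT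
  have hTR : ROp W X 0 T := rop_iff.2 (qop_pull (W := W) f)
  have hann' : ∀ i ≤ 2 * X.dim, ∀ a ∈ W.gr X i, ev T (P i) a = 0 := by
    intro i hi a ha
    have h1 := hann i hi a ha
    rwa [ev_apply]
  intro i
  apply kunnethAt_iff.2
  by_cases hi : 2 * X.dim < i
  · rw [proj_eq_zero_of_lt hi]
    exact rop_opAlg.zero 0
  push Not at hi
  have h1 : IsCoprime (P i) (∏ l ∈ (range (2 * X.dim + 1)).erase i, P l) := by
    apply IsCoprime.prod_right
    intro l hl
    rw [Finset.mem_erase, Finset.mem_range] at hl
    exact hcop i hi l (by omega) (Ne.symm hl.1)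
  obtain ⟨u, v, huv⟩ := h1
  have h2 : ev T (v * ∏ l ∈ (range (2 * X.dim + 1)).erase i, P l) = proj (W.isInternal X) i := by
    apply gr_ext (W.isInternal X)
    intro l a ha
    by_cases hl : l = i
    · subst hl
      rw [proj_same _ ha]
      have h3 : v * ∏ l ∈ (range (2 * X.dim + 1)).erase l, P l = 1 - u * P l := by
        linear_combination huv
      rw [h3, map_sub, map_one, map_mul, LinearMap.sub_apply, Module.End.one_apply,
        Module.End.mul_apply, hann' l hi a ha, map_zero, sub_zero]
    · rw [proj_ne _ ha hl]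
      by_cases hl2 : l ≤ 2 * X.dim
      · rw [← Finset.mul_prod_erase ((range (2 * X.dim + 1)).erase i) P (a := l)
          (Finset.mem_erase.2 ⟨hl, Finset.mem_range.2 (by omega)⟩)]
        rw [show v * (P l * ∏ x ∈ ((range (2 * X.dim + 1)).erase i).erase l, P x) =
          (v * ∏ x ∈ ((range (2 * X.dim + 1)).erase i).erase l, P x) * P l by ring, map_mul,
          Module.End.mul_apply, hann' l hl2 a ha, map_zero]
      · rw [W.gr_eq_bot X l (by omega)] at ha
        rw [(Submodule.mem_bot _).1 ha, map_zero]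
  rw [← h2]
  exact rop_ev hTR _

end Pool.Agent.J4H12.VT
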