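import Pool.Agent.J4H12.VT.Frob
import Pool.Agent.H447R3.NumB

/-!
# The variational Tate conjecture gives left inverses
-/

set_option autoImplicit false

open CategoryTheory AlgebraicGeometry Finset

universe u v

namespace Pool.Agent.J4H12.VT

open Pool.Agent.H914 Pool.Agent.H447 Pool.Agent.W498.Dom VarClass Obj WeilCohomology
  Pool.Agent.J4H44.BM Pool.Agent.W534

variable {k : Type u} [Field k] {𝒱 : VarClass k} {ops : CycleOps 𝒱}
  {W : WeilCohomology.{u, v} ops} {X Y Z F : 𝒱.Obj} {φ : Z ⟶ X} {D : X.Cycles}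

lemma IsSection.push_map (S : IsSection W φ D) : ∃ m : ℚ, m ≠ 0 ∧ ∀ a, W.push φ (W.map φ a) =
    (m : W.K) • (W.cl X D ^ (X.dim - Z.dim) * a) := by
  obtain ⟨m, hm, h⟩ := S.cls
  refine ⟨m, hm, fun a => ?_⟩
  have h1 := W.push_mul φ 1 a
  rw [one_mul] at h1
  rw [W.cl_push, W.cl_fund] at h
  rw [h1, h, smul_mul_assoc]

/-- The Künneth component of a section is the restriction of a cohomology class. -/
lemma IsSection.exists_class (S : IsSection W φ D) (hD : X.IsCyc 1 D) (hHL : HardLefschetz W X D)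
    {i : ℕ} (hi : i < Z.dim) {γ : W.H (Z.prod Z)} (hγ : W.corr γ = proj (W.isInternal Z) i) :
    ∃ u, W.map (sqMap φ) u = γ := by
  have hlt := S.lt
  obtain ⟨m, hm, hpm⟩ := S.push_map
  have hmK : (m : W.K) ≠ 0 := by exact_mod_cast hm
  set r := X.dim - Z.dim with hr
  -- a left inverse of `L ^ r` on `H^i(X)`
  set A : W.gr X i →ₗ[W.K] W.H X := (lop W X D ^ r) ∘ₗ (W.gr X i).subtype with hA
  have hinj : LinearMap.ker A = ⊥ := by
    rw [LinearMap.ker_eq_bot']
    intro a ha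
    have h1 : (lop W X D ^ r) (a : W.H X) = 0 := ha
    have h2 : (lop W X D ^ (X.dim - i)) (a : W.H X) = 0 := by
      rw [show X.dim - i = (X.dim - i - r) + r by omega, pow_add, Module.End.mul_apply, h1,
        map_zero]
    exact Subtype.ext ((hHL i (by omega)).1 a a.2 h2)
  obtain ⟨g, hg⟩ := A.exists_leftInverse_of_injective hinj
  set U : Module.End W.K (W.H X) :=
    (m : W.K)⁻¹ • ((W.gr X i).subtype ∘ₗ g ∘ₗ proj (W.isInternal X) (i + 2 * r)) with hU
  obtain ⟨u, hu⟩ := exists_corr (W := W) U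
  refine ⟨u, ?_⟩
  rw [← sub_eq_zero]
  apply corr_inj (W := W)
  rw [corr_sub'', corr_sqMap, hγ, hu, sub_eq_zero]
  apply gr_ext (W.isInternal Z)
  intro l x hx
  rw [LinearMap.comp_apply, LinearMap.comp_apply]
  have hpush : W.push φ x ∈ W.gr X (l + 2 * r) := by
    have h1 := W.push_mem φ hx
    rwa [show (l : ℤ) + 2 * ((X.dim : ℤ) - Z.dim) = ((l + 2 * r : ℕ) : ℤ) by omega,
      grZ_natCast] at h1
  by_cases hl : l = i
  · subst hl
    obtain ⟨a, ha, rfl⟩ := S.surj l hi x hx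
    rw [proj_same _ hx, hU, LinearMap.smul_apply, LinearMap.comp_apply, LinearMap.comp_apply,
      proj_same _ hpush, hpm, map_smul, map_smul, map_smul, map_smul, smul_smul,
      inv_mul_cancel₀ hmK, one_smul]
    have h2 : g (W.cl X D ^ r * a) = ⟨a, ha⟩ := by
      have h3 := congrArg (fun G => G ⟨a, ha⟩) hg
      rw [← lop_pow_apply]
      exact h3
    rw [h2]
    rfl
  · rw [proj_ne _ hx hl, hU, LinearMap.smul_apply, LinearMap.comp_apply, LinearMap.comp_apply,
      proj_ne _ hpush (by omega), map_zero, map_zero, smul_zero, map_zero]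

/-- The form of an algebraic Künneth component of a section. -/
def HasForm (W : WeilCohomology.{u, v} ops) {X Z : 𝒱.Obj} (φ : Z ⟶ X) (i : ℕ)
    (w : Module.End W.K (W.H X)) : Prop :=
  ∃ a : W.K, proj (W.isInternal Z) i = a • 1 + (W.map φ).toLinearMap ∘ₗ w ∘ₗ W.push φ

section SquareFamily

variable {b : F ⟶ Z.prod Z} {j : F ⟶ Y} {g : Y ⟶ X.prod X}

lemma SquareFamily.push_map (Q : SquareFamily W φ b j g) (γ : W.H (Z.prod Z)) :
    W.push b (W.map b γ) = γ := by
  have h1 := W.push_mul b 1 γ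
  rw [one_mul, Q.birat, one_mul] at h1
  exact h1

lemma SquareFamily.map_map (Q : SquareFamily W φ b j g) (u : W.H (X.prod X)) :
    W.map b (W.map (sqMap φ) u) = W.map j (W.map g u) := by
  rw [← W.map_comp, ← W.map_comp, Q.comm]

/-- **The rational variational Tate conjecture and the Künneth components of a section.** -/
theorem SquareFamily.form (Q : SquareFamily W φ b j g) (S : IsSection W φ D)
    (hD : X.IsCyc 1 D) (hHL : HardLefschetz W X D) {i : ℕ} (hi : i < Z.dim)
    (hK : KunnethAt W Z i) (hV : CyclesExtendQ W j Z.dim) :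
    ∃ w, QOp W X X ((Z.dim : ℤ) - X.dim) w ∧ HasForm W φ i w := by
  obtain ⟨P, hP, hP'⟩ := hK
  have hγ : W.corr (W.cl _ P) = proj (W.isInternal Z) i := by
    apply gr_ext (W.isInternal Z)
    intro l a ha
    rw [hP' l a ha]
    split_ifs with hl
    · subst hl; rw [proj_same _ ha]
    · rw [proj_ne _ ha hl]
  obtain ⟨u, hu⟩ := S.exists_class hD hHL hi hγ
  obtain ⟨z, hz, hzc⟩ := hV (ops.pull b P) (ops.pull_mem b hP) ⟨W.map g u, by
    rw [← Q.map_map, hu, W.cl_pull]⟩
  obtain ⟨a, w, hw, hs⟩ := Q.spread z hz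
  rw [hzc, W.cl_pull, Q.push_map] at hs
  refine ⟨W.corr (W.cl _ w), QOp.gen (p := Z.dim) (by ring) hw, a, ?_⟩
  rw [← hγ, hs, corr_add, corr_smul, corr_diagCyc, corr_sqMap]

/-- The images of linear combinations. -/
lemma SquareFamily.spreadK (Q : SquareFamily W φ b j g) {z : W.H Y}
    (hz : z ∈ spanCycles W Y Z.dim) : ∃ (a : W.K) (w : W.H (X.prod X)),
      w ∈ spanCycles W (X.prod X) Z.dim ∧ W.push b (W.map j z) =
        a • W.cl (Z.prod Z) (diagCyc ops Z) + W.map (sqMap φ) w := by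
  induction hz using Submodule.span_induction with
  | mem x hx =>
    obtain ⟨p, hp, c, hc, rfl⟩ := hx
    obtain rfl : p = Z.dim := by exact_mod_cast hp
    obtain ⟨a, w, hw, hs⟩ := Q.spread c hc
    exact ⟨a, _, Submodule.subset_span ⟨_, rfl, w, hw, rfl⟩, hs⟩
  | zero => exact ⟨0, 0, Submodule.zero_mem _, by simp⟩
  | add x y _ _ hx hy =>
    obtain ⟨a, w, hw, hs⟩ := hx
    obtain ⟨a', w', hw', hs'⟩ := hy
    refine ⟨a + a', w + w', Submodule.add_mem _ hw hw', ?_⟩
    rw [map_add, map_add, hs, hs', add_smul, map_add]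
    abel
  | smul c x _ hx =>
    obtain ⟨a, w, hw, hs⟩ := hx
    refine ⟨c * a, c • w, Submodule.smul_mem _ _ hw, ?_⟩
    rw [map_smul, map_smul, hs, smul_add, smul_smul, map_smul]

/-- **The variational Tate conjecture with coefficients and the Künneth components of a
section.** -/
theorem SquareFamily.formK (Q : SquareFamily W φ b j g) (S : IsSection W φ D)
    (hD : X.IsCyc 1 D) (hHL : HardLefschetz W X D) {i : ℕ} (hi : i < Z.dim)
    (hK : KunnethAt W Z i) (hV : CyclesExtendK W j Z.dim) :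
    ∃ w, w ∈ KOp W X X ((Z.dim : ℤ) - X.dim) ∧ HasForm W φ i w := by
  obtain ⟨P, hP, hP'⟩ := hK
  have hγ : W.corr (W.cl _ P) = proj (W.isInternal Z) i := by
    apply gr_ext (W.isInternal Z)
    intro l a ha
    rw [hP' l a ha]
    split_ifs with hl
    · subst hl; rw [proj_same _ ha]
    · rw [proj_ne _ ha hl]
  obtain ⟨u, hu⟩ := S.exists_class hD hHL hi hγ
  have h1 : W.map j (W.map g u) = W.cl _ (ops.pull b P) := by
    rw [← Q.map_map, hu, W.cl_pull]
  obtain ⟨z, hz, hzc⟩ := hV (W.map g u) (by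
    rw [h1]
    exact Submodule.subset_span ⟨_, rfl, _, ops.pull_mem b hP, rfl⟩)
  obtain ⟨a, w, hw, hs⟩ := Q.spreadK hz
  rw [hzc, h1, W.cl_pull, Q.push_map] at hs
  refine ⟨W.corr w, mem_KOp_iff.2 ⟨w, ?_, rfl⟩, a, ?_⟩
  · rwa [show (X.dim : ℤ) + ((Z.dim : ℤ) - X.dim) = Z.dim by ring]
  · rw [← hγ, hs, corr_add, corr_smul, corr_diagCyc, corr_sqMap]

end SquareFamily

end Pool.Agent.J4H12.VT
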