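import Pool.Agent.J4H12.VT.Form
import Pool.Agent.J4H44.BM.Kun2

/-!
# Cycles on the squares of sections
-/

set_option autoImplicit false

open CategoryTheory AlgebraicGeometry Finset

universe u v

namespace Pool.Agent.J4H12.VT

open Pool.Agent.H914 Pool.Agent.H447 Pool.Agent.W498.Dom VarClass Obj WeilCohomology
  Pool.Agent.J4H44.BM Pool.Agent.W534

variable {k : Type u} [Field k] {𝒱 : VarClass k} {ops : CycleOps 𝒱}
  {W : WeilCohomology.{u, v} ops} {X Y Z F : 𝒱.Obj} {φ : Z ⟶ X} {D : X.Cycles}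

/-- The transpose of a rational correspondence. -/
lemma QOp.transpose {d : ℤ} {s : W.H X →ₗ[W.K] W.H Y} (hs : QOp W X Y d s) :
    ∃ t, QOp W Y X ((X.dim : ℤ) - Y.dim + d) t ∧ ∀ a b, W.tr Y (s a * b) = W.tr X (a * t b) := by
  by_cases hd : (X.dim : ℤ) + d < 0
  · rcases hs with ⟨p, hp, -⟩ | ⟨-, rfl⟩
    · omega
    · exact ⟨0, QOp.zero _, fun a b => by simp⟩
  · obtain ⟨P, hP, rfl⟩ := hs.exists_cyc (p := (X.dim + d).toNat) (by omega)
    refine ⟨W.corr (W.cl _ (ops.pull (swap Y X) P)),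
      QOp.gen (p := (X.dim + d).toNat) (by omega) (ops.pull_mem _ hP), fun a b => ?_⟩
    rw [W.cl_pull]
    exact tr_corr_swap (W.cl_mem hP) a b

/-- The push-forward is injective above the middle degree. -/
lemma IsSection.push_inj (S : IsSection W φ D) {l : ℕ} (hl : Z.dim < l) {y : W.H Z}
    (hy : y ∈ W.gr Z l) (h0 : W.push φ y = 0) : y = 0 := by
  apply W.nondeg
  intro b
  refine gr_induction (W.isInternal Z) (p := fun b => W.tr Z (y * b) = 0) ?_ ?_ b
  · intro p b hb
    by_cases hp : l + p = 2 * Z.dim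
    · obtain ⟨a, -, rfl⟩ := S.surj p (by omega) b hb
      rw [← W.tr_push, h0, zero_mul, map_zero]
    · exact W.tr_eq_zero (W.mul_mem hy hb) hp
  · intro b b' hb hb'
    rw [mul_add, map_add, hb, hb', add_zero]

/-- Right inverses of powers of the Lefschetz operator. -/
lemma exists_rightInv (hD : X.IsCyc 1 D) (hHL : HardLefschetz W X D) (hB : LefschetzB W X D)
    {l r : ℕ} (hl : X.dim ≤ l + r) (hl2 : l + 2 * r ≤ 2 * X.dim) :
    ∃ R : Module.End W.K (W.H X), QOp W X X (-r) R ∧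
      ∀ z ∈ W.gr X (l + 2 * r), W.cl X D ^ r * R z = z := by
  obtain ⟨w, hw, hinv⟩ := (Pool.Agent.J4H44.BM.leftInv_iff (by omega)).1
    (leftInvAlg_of_lefschetzB hD hHL hB (i := 2 * X.dim - (l + 2 * r)) (s := r) (by omega))
  obtain ⟨R, hR, hadj⟩ := QOp.transpose hw
  refine ⟨R, hR.cast (by ring), fun z hz => ?_⟩
  have hRz : R z ∈ W.gr X l := op_mem hR hz (by push_cast; ring)
  apply eq_of_tr (l := l + 2 * r) (lop_mem hD hRz) hz
  intro p hp a ha
  have e1 : a * (W.cl X D ^ r * R z) = W.cl X D ^ r * a * R z := by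
    rw [← mul_assoc]
    congr 1
    have h0 : W.cl X D ^ r ∈ W.gr X (2 * r) := by
      simpa using lop_mem (W := W) hD (s := r) (W.one_mem (X := X))
    have h1 := W.comm h0 ha
    rw [h1]
    have : Even (2 * r * p) := by rw [mul_assoc]; exact even_two_mul _
    rw [this.neg_one_pow, one_smul]
  rw [e1, ← hadj, hinv a (by rwa [show 2 * X.dim - (l + 2 * r) = p by omega])]

/-- **The restriction to a section splits.** -/
theorem IsSection.exists_split (S : IsSection W φ D) (hD : X.IsCyc 1 D)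
    (hHL : HardLefschetz W X D) (hB : LefschetzB W X D) :
    ∃ s, QOp W Z X 0 s ∧ ∀ x, W.map φ (s (W.map φ x)) = W.map φ x := by
  have hlt := S.lt
  obtain ⟨m, hm, hpm⟩ := S.push_map
  have hmK : (m : W.K) ≠ 0 := by exact_mod_cast hm
  have hC := kunneth_of_lefschetzB hD hHL hB
  set r := X.dim - Z.dim with hr
  -- one degree
  have h1 : ∀ l, ∃ s, QOp W Z X 0 s ∧ (∀ x ∈ W.gr X l, W.map φ (s (W.map φ x)) = W.map φ x) ∧
      ∀ l', l' ≠ l → ∀ y ∈ W.gr Z l', s y = 0 := by
    intro l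
    have hπ := rop_iff.1 (kunnethAt_iff.1 (hC l))
    have gen : ∀ w : Module.End W.K (W.H X), QOp W X X (-r) w →
        ∀ l', l' ≠ l → ∀ y ∈ W.gr Z l',
          (((m⁻¹ : ℚ) : W.K) • (proj (W.isInternal X) l ∘ₗ w ∘ₗ W.push φ)) y = 0 := by
      intro w hw l' hl' y hy
      have h2 : (w ∘ₗ W.push φ) y ∈ W.gr X l' :=
        op_mem ((hw.comp (qop_push (W := W) φ)).cast (show (X.dim : ℤ) - Z.dim + -r = 0 by omega))
          hy (by ring)
      rw [LinearMap.smul_apply, LinearMap.comp_apply, proj_ne _ h2 hl', smul_zero]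
    have gen2 : ∀ w : Module.End W.K (W.H X), QOp W X X (-r) w →
        QOp W Z X 0 (((m⁻¹ : ℚ) : W.K) • (proj (W.isInternal X) l ∘ₗ w ∘ₗ W.push φ)) := by
      intro w hw
      exact ((hπ.comp (hw.comp (qop_push (W := W) φ))).smul _).cast (by omega)
    rcases Nat.lt_or_ge Z.dim l with hl | hl
    · by_cases hl2 : l ≤ 2 * Z.dim
      · obtain ⟨R, hR, hRz⟩ := exists_rightInv hD hHL hB (l := l) (r := r) (by omega) (by omega)
        refine ⟨_, gen2 R hR, fun x hx => ?_, gen R hR⟩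
        have hx' := W.map_mem φ hx
        have h3 : W.cl X D ^ r * x ∈ W.gr X (l + 2 * r) := lop_mem hD hx
        have h4 : R (W.cl X D ^ r * x) ∈ W.gr X l := op_mem hR h3 (by push_cast; ring)
        have h5 : (((m⁻¹ : ℚ) : W.K) • (proj (W.isInternal X) l ∘ₗ R ∘ₗ W.push φ)) (W.map φ x) =
            R (W.cl X D ^ r * x) := by
          rw [LinearMap.smul_apply, LinearMap.comp_apply, LinearMap.comp_apply, hpm, map_smul,
            map_smul, proj_same _ h4, smul_smul]
          push_cast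
          rw [inv_mul_cancel₀ hmK, one_smul]
        rw [h5, ← sub_eq_zero]
        apply S.push_inj hl (Submodule.sub_mem _ (W.map_mem φ h4) hx')
        rw [map_sub, hpm, hpm, hRz _ h3, sub_self]
      · refine ⟨0, QOp.zero 0, fun x hx => ?_, fun _ _ _ _ => rfl⟩
        have hx' := W.map_mem φ hx
        rw [W.gr_eq_bot Z l (by omega)] at hx'
        rw [(Submodule.mem_bot _).1 hx']
        simp
    · obtain ⟨w, hw, hinv⟩ := (Pool.Agent.J4H44.BM.leftInv_iff (by omega)).1
        (leftInvAlg_of_lefschetzB hD hHL hB (i := l) (s := r) (by omega))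
      refine ⟨_, gen2 w hw, fun x hx => ?_, gen w hw⟩
      rw [LinearMap.smul_apply, LinearMap.comp_apply, LinearMap.comp_apply, hpm, map_smul,
        map_smul, hinv x hx, map_smul, map_smul, proj_same _ hx, smul_smul]
      push_cast
      rw [inv_mul_cancel₀ hmK, one_smul]
  choose s hs hs1 hs2 using h1
  refine ⟨∑ l ∈ range (2 * X.dim + 1), s l, QOp.sum fun l _ => hs l, fun x => ?_⟩
  refine gr_induction (W.isInternal X) (p := fun x =>
    W.map φ ((∑ l ∈ range (2 * X.dim + 1), s l) (W.map φ x)) = W.map φ x) ?_ ?_ x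
  · intro i a ha
    by_cases hi : i ≤ 2 * X.dim
    · rw [LinearMap.sum_apply, Finset.sum_eq_single i, hs1 i a ha]
      · intro l _ hl
        exact hs2 l i (Ne.symm hl) _ (W.map_mem φ ha)
      · intro h
        exact absurd (Finset.mem_range.2 (by omega)) h
    · rw [W.gr_eq_bot X i (by omega)] at ha
      rw [(Submodule.mem_bot _).1 ha]
      simp
  · intro a b ha hb
    rw [map_add, map_add, map_add, ha, hb]

/-- **Cycles on the square of a section.** -/
theorem extend_square (h : ∃ s, QOp W Z X 0 s ∧ ∀ x, W.map φ (s (W.map φ x)) = W.map φ x)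
    (q : ℕ) : CyclesExtendQ W (sqMap φ) q := by
  obtain ⟨s, hs, hsp⟩ := h
  obtain ⟨t, ht, hadj⟩ := QOp.transpose hs
  have htp : ∀ y, W.push φ (t (W.push φ y)) = W.push φ y := by
    intro y
    rw [← sub_eq_zero]
    apply nondeg_right
    intro x
    rw [mul_sub, map_sub, sub_eq_zero, tr_mul_push, ← hadj, tr_mul_push, hsp, ← tr_mul_push]
  intro c hc ⟨u, hu⟩
  have hT : QOp W Z Z ((q : ℤ) - Z.dim) (W.corr (W.cl _ c)) := QOp.gen (p := q) (by ring) hc
  obtain ⟨w, hw, hwe⟩ := ((hs.comp (hT.comp ht)).cast (show (Z.dim : ℤ) - X.dim + 0 +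
    ((q : ℤ) - Z.dim) + 0 = (q : ℤ) - X.dim by ring)).exists_cyc (p := q) (by ring)
  refine ⟨w, hw, ?_⟩
  rw [← sub_eq_zero]
  apply corr_inj (W := W)
  rw [corr_sub'', corr_sqMap, hwe, sub_eq_zero, ← hu, corr_sqMap]
  apply LinearMap.ext
  intro y
  simp only [LinearMap.comp_apply, AlgHom.toLinearMap_apply]
  rw [hsp, htp]

end Pool.Agent.J4H12.VT
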