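import Pool.Agent.J4H12.VT.RatProj
import Pool.Agent.J4H12.VT.Strict
import Pool.Agent.J4H12.Fib.Main
import Pool.Agent.J4H44.BM.NilC

/-!
# The Lefschetz standard conjecture implies the variational Tate conjecture
-/

set_option autoImplicit false

open CategoryTheory AlgebraicGeometry Finset

universe u v

namespace Pool.Agent.J4H12.VT

open Pool.Agent.H914 Pool.Agent.H447 Pool.Agent.W498.Dom VarClass Obj WeilCohomology
  Pool.Agent.J4H44.BM Pool.Agent.W534
open Pool.Agent.J4H12.Fib (AlgebraicallySplit ProjectorAlgebraic)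

variable {k : Type u} [Field k] {𝒱 : VarClass k} {ops : CycleOps 𝒱}
  {W : WeilCohomology.{u, v} ops} {X Y F : 𝒱.Obj} {f : Y ⟶ X} {D : X.Cycles} {E : Y.Cycles}
  {j : F ⟶ Y}

/-- The operators `j^* s` for rational correspondences `s` from `F` to `Y`. -/
def resOps (W : WeilCohomology.{u, v} ops) {F Y : 𝒱.Obj} (j : F ⟶ Y) :
    Set (Module.End W.K (W.H F)) :=
  {x | ∃ s, QOp W F Y 0 s ∧ x = (W.map j).toLinearMap ∘ₗ s}

lemma ratSys (hS : SignStd W Y) :
    RatSys (resOps W j) (LinearMap.range (W.map j).toLinearMap) where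
  zero := ⟨0, QOp.zero 0, by rw [LinearMap.comp_zero]⟩
  add := by
    rintro _ ⟨s, hs, rfl⟩ _ ⟨t, ht, rfl⟩
    exact ⟨s + t, hs.add ht, by rw [LinearMap.comp_add]⟩
  smul := by
    rintro q _ ⟨s, hs, rfl⟩
    exact ⟨(q : W.K) • s, hs.smul q, by rw [LinearMap.comp_smul]⟩
  mul := by
    rintro _ ⟨s, hs, rfl⟩ _ ⟨t, ht, rfl⟩
    refine ⟨s ∘ₗ (W.map j).toLinearMap ∘ₗ t, ?_, rfl⟩
    exact (hs.comp ((qop_pull (W := W) j).comp ht)).cast (by ring)
  maps := by
    rintro _ ⟨s, hs, rfl⟩ v
    exact ⟨s v, rfl⟩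
  trace := by
    rintro _ ⟨s, hs, rfl⟩
    have h1 : ROp W F 0 ((W.map j).toLinearMap ∘ₗ (par (W.isInternal Y) ∘ₗ s)) := by
      rw [rop_iff]
      have h2 : QOp W Y Y 0 (par (W.isInternal Y)) := rop_iff.1 (par_rop_of_sign hS)
      exact ((qop_pull (W := W) j).comp (h2.comp hs)).cast (by ring)
    obtain ⟨q, hq⟩ := rop_str _ h1
    refine ⟨q, ?_⟩
    rw [← hq]
    congr 1
    have h2 := par_comp (qop_pull (W := W) j)
    have h3 : (W.map j).toLinearMap ∘ₗ (par (W.isInternal Y) ∘ₗ s) =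
        par (W.isInternal F) * ((W.map j).toLinearMap ∘ₗ s) := by
      rw [← LinearMap.comp_assoc, ← h2]; rfl
    rw [h3, ← mul_assoc, par_mul_par, one_mul]

lemma split_mem {s : W.H F →ₗ[W.K] W.H Y} (hs : s ∈ KOp W F Y 0) :
    (W.map j).toLinearMap ∘ₗ s ∈ Submodule.span W.K (resOps W j) := by
  induction hs using Submodule.span_induction with
  | mem x hx =>
    obtain ⟨p, hp, z, hz, rfl⟩ := hx
    exact Submodule.subset_span ⟨_, QOp.gen hp hz, rfl⟩
  | zero => rw [LinearMap.comp_zero]; exact Submodule.zero_mem _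
  | add x y _ _ hx hy => rw [LinearMap.comp_add]; exact Submodule.add_mem _ hx hy
  | smul a x _ hx => rw [LinearMap.comp_smul]; exact Submodule.smul_mem _ _ hx

/-- **A rational splitting.** -/
theorem exists_rat_split (hS : SignStd W Y)
    (hs : AlgebraicallySplit W j) :
    ∃ s, QOp W F Y 0 s ∧ ∀ y, W.map j (s (W.map j y)) = W.map j y := by
  obtain ⟨s, hs, hsp⟩ := hs
  obtain ⟨e, ⟨t, ht, rfl⟩, he⟩ := (ratSys (W := W) (j := j) hS).exists_rat (split_mem hs) (by
    rintro _ ⟨y, rfl⟩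
    exact hsp y)
  exact ⟨t, ht, fun y => he _ ⟨y, rfl⟩⟩

lemma splitQ_iff : SplitQ W j ↔ ∃ s, QOp W F Y 0 s ∧ ∀ y, W.map j (s (W.map j y)) = W.map j y := by
  constructor
  · rintro ⟨c, hc, h⟩
    exact ⟨_, QOp.gen (p := F.dim) (by ring) hc, h⟩
  · rintro ⟨s, hs, h⟩
    obtain ⟨c, hc, rfl⟩ := hs.exists_cyc (p := F.dim) (by ring)
    exact ⟨c, hc, h⟩

/-- A rational splitting extends rational cycles. -/
theorem cyclesExtendQ_of_split (h : SplitQ W j) (q : ℕ) : CyclesExtendQ W j q := by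
  obtain ⟨Z, hZ, hsp⟩ := h
  intro c hc ⟨y, hy⟩
  refine ⟨ops.push (snd F Y) (ops.mul Z (ops.pull (fst F Y) c)), ?_, ?_⟩
  · apply ops.push_mem _ (ops.mul_mem hZ (ops.pull_mem _ hc))
    rw [dim_prod]
    omega
  · rw [W.cl_push, W.cl_mul, W.cl_pull, ← corr_apply, ← hy]
    exact hsp y

/-- A rational splitting extends linear combinations of cycles. -/
theorem cyclesExtendK_of_split (h : SplitQ W j) (q : ℕ) : CyclesExtendK W j q := by
  obtain ⟨c, hc, h1⟩ := h
  intro y hy
  refine ⟨W.corr (W.cl _ c) (W.map j y), ?_, h1 y⟩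
  have := KOp.map_span (KOp.gen (W := W) (d := 0) (p := F.dim) (by ring) hc) hy
  rwa [add_zero] at this

/-- The rational operators with values in the image of the restriction which kill its orthogonal
complement. -/
def invOps (W : WeilCohomology.{u, v} ops) {F Y : 𝒱.Obj} (j : F ⟶ Y) :
    Set (Module.End W.K (W.H F)) :=
  {x | QOp W F F 0 x ∧ (∀ v, x v ∈ LinearMap.range (W.map j).toLinearMap) ∧
    ∀ v, (∀ y, W.tr F (v * W.map j y) = 0) → x v = 0}

lemma tr_comm_of_mem {p : ℕ} {b : W.H F} (hb : b ∈ W.gr F p) (a : W.H F) :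
    W.tr F (a * b) = (-1 : W.K) ^ p * W.tr F (b * a) := by
  refine gr_induction (W.isInternal F) (p := fun a =>
    W.tr F (a * b) = (-1 : W.K) ^ p * W.tr F (b * a)) ?_ ?_ a
  · intro l a ha
    by_cases hl : l + p = 2 * F.dim
    · rw [W.comm ha hb, map_smul, smul_eq_mul]
      congr 1
      have h1 : Even (l * p + p) := by
        have : l * p + p = p * (l + 1) := by ring
        rw [this]
        rcases Nat.even_or_odd p with h | h
        · exact h.mul_right _
        · apply Even.mul_left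
          have : Odd l := by
            rcases Nat.even_or_odd l with h2 | h2
            · exfalso
              obtain ⟨u, hu⟩ := h2
              obtain ⟨v, hv⟩ := h
              omega
            · exact h2
          exact this.add_one
      have h2 : (-1 : W.K) ^ (l * p) * (-1) ^ p = 1 := by rw [← pow_add, h1.neg_one_pow]
      have h3 := neg_one_sq W.K p
      calc (-1 : W.K) ^ (l * p) = (-1 : W.K) ^ (l * p) * ((-1 : W.K) ^ p * (-1) ^ p) := by
            rw [h3, mul_one]
        _ = (-1 : W.K) ^ p := by rw [← mul_assoc, h2, one_mul]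
    · rw [W.tr_eq_zero (W.mul_mem ha hb) hl, W.tr_eq_zero (W.mul_mem hb ha) (by omega), mul_zero]
  · intro a a' ha ha'
    rw [add_mul, mul_add, map_add, map_add, ha, ha', mul_add]

lemma orth_iff (x : W.H F) : (∀ y, W.tr F (x * W.map j y) = 0) ↔
    ∀ y, W.tr F (W.map j y * x) = 0 := by
  constructor
  · intro h y
    refine gr_induction (W.isInternal Y) (p := fun y => W.tr F (W.map j y * x) = 0) ?_ ?_ y
    · intro p y hy
      have h1 := tr_comm_of_mem (W.map_mem j hy) x
      rw [h y] at h1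
      exact (mul_eq_zero.1 h1.symm).resolve_left (pow_ne_zero _ (by norm_num))
    · intro a b ha hb
      rw [map_add, add_mul, map_add, ha, hb, add_zero]
  · intro h y
    refine gr_induction (W.isInternal Y) (p := fun y => W.tr F (x * W.map j y) = 0) ?_ ?_ y
    · intro p y hy
      rw [tr_comm_of_mem (W.map_mem j hy) x, h y, mul_zero]
    · intro a b ha hb
      rw [map_add, mul_add, map_add, ha, hb, add_zero]

/-- **The rational orthogonal projector.** -/
theorem exists_rat_invariants (hS : SignStd W Y) (hs : SplitQ W j)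
    (hp : ProjectorAlgebraic W j) : InvariantsQ W j := by
  obtain ⟨s, hs, hsp⟩ := splitQ_iff.1 hs
  set e : Module.End W.K (W.H F) := (W.map j).toLinearMap ∘ₗ s with he
  have heQ : QOp W F F 0 e := ((qop_pull (W := W) j).comp hs).cast (by ring)
  obtain ⟨t, ht, hadj⟩ := QOp.transpose heQ
  have ht0 : QOp W F F 0 t := ht.cast (by ring)
  obtain ⟨p, hpK, hp1, hp2, hp3⟩ := hp
  have hRS : RatSys (invOps W j) (LinearMap.range (W.map j).toLinearMap) := by
    refine ⟨⟨QOp.zero 0, fun v => Submodule.zero_mem _, fun v _ => rfl⟩, ?_, ?_, ?_, ?_, ?_⟩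
    · rintro x ⟨h1, h2, h3⟩ y ⟨h1', h2', h3'⟩
      exact ⟨h1.add h1', fun v => Submodule.add_mem _ (h2 v) (h2' v), fun v hv => by
        rw [LinearMap.add_apply, h3 v hv, h3' v hv, add_zero]⟩
    · rintro q x ⟨h1, h2, h3⟩
      exact ⟨h1.smul q, fun v => Submodule.smul_mem _ _ (h2 v), fun v hv => by
        rw [LinearMap.smul_apply, h3 v hv, smul_zero]⟩
    · rintro x ⟨h1, h2, h3⟩ y ⟨h1', h2', h3'⟩
      exact ⟨(h1.comp h1').cast (by ring), fun v => h2 _, fun v hv => by
        rw [Module.End.mul_apply, h3' v hv, map_zero]⟩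
    · rintro x ⟨h1, h2, h3⟩ v
      exact h2 v
    · rintro x ⟨h1, h2, h3⟩
      refine (ratSys (W := W) (j := j) hS).trace x ⟨s ∘ₗ x, (hs.comp h1).cast (by ring), ?_⟩
      apply LinearMap.ext
      intro v
      obtain ⟨y, hy⟩ := h2 v
      rw [LinearMap.comp_apply, LinearMap.comp_apply, ← hy]
      exact (hsp y).symm
  -- the projector is a combination of such operators
  have hee : ∀ y, e (W.map j y) = W.map j y := fun y => hsp y
  have hpe : p = e ∘ₗ p ∘ₗ t := by
    apply LinearMap.ext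
    intro v
    change p v = e (p (t v))
    have h1 : p (v - t v) = 0 := by
      apply hp3
      rw [orth_iff]
      intro y
      rw [mul_sub, map_sub, ← hadj, hee, sub_self]
    rw [map_sub, sub_eq_zero] at h1
    obtain ⟨y, hy⟩ := hp2 (t v)
    rw [h1, hy, hee]
  have hmem : ∀ x ∈ KOp W F F 0, e ∘ₗ x ∘ₗ t ∈ Submodule.span W.K (invOps W j) := by
    intro x hx
    induction hx using Submodule.span_induction with
    | mem x hx =>
      obtain ⟨r, hr, z, hz, rfl⟩ := hx
      refine Submodule.subset_span ⟨(heQ.comp ((QOp.gen hr hz).comp ht0)).cast (by ring), ?_, ?_⟩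
      · intro v
        exact ⟨_, rfl⟩
      · intro v hv
        have h1 : t v = 0 := by
          apply nondeg_right
          intro a
          rw [← hadj]
          exact (orth_iff v).1 hv _
        change e (W.corr (W.cl _ z) (t v)) = 0
        rw [h1, map_zero, map_zero]
    | zero => rw [LinearMap.zero_comp, LinearMap.comp_zero]; exact Submodule.zero_mem _
    | add x y _ _ hx hy =>
      rw [LinearMap.add_comp, LinearMap.comp_add]; exact Submodule.add_mem _ hx hy
    | smul a x _ hx =>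
      rw [LinearMap.smul_comp, LinearMap.comp_smul]; exact Submodule.smul_mem _ _ hx
  obtain ⟨x, ⟨h1, h2, h3⟩, h4⟩ := hRS.exists_rat (p := p) (by rw [hpe]; exact hmem p hpK)
    (by rintro _ ⟨y, rfl⟩; exact hp1 y)
  obtain ⟨c, hc, rfl⟩ := h1.exists_cyc (p := F.dim) (by ring)
  exact ⟨c, hc, fun y => h4 _ ⟨y, rfl⟩, h3⟩

lemma IsFamily.general {F Y B : 𝒱.Obj} {j : F ⟶ Y} {f : Y ⟶ B} {D : B.Cycles} {E : Y.Cycles}
    (h : IsFamily W j f D E) : Pool.Agent.J4H12.Fib.IsGeneralFibre W j f D :=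
  ⟨h.dim, h.cls, h.ker⟩

/-- **The Lefschetz standard conjecture for the total space implies the variational Tate conjecture
for the fibre**, with and without coefficients. -/
theorem fibre_of_total {F Y B : 𝒱.Obj} {j : F ⟶ Y} {f : Y ⟶ B} {D : B.Cycles} {E E' : Y.Cycles}
    (h : IsFamily W j f D E) (hE' : Y.IsCyc 1 E') (hHL' : HardLefschetz W Y E')
    (hB : LefschetzB W Y E') :
    SplitQ W j ∧ InvariantsQ W j ∧ ∀ q, CyclesExtendQ W j q ∧ CyclesExtendK W j q := by
  obtain ⟨Q⟩ := h.perv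
  obtain ⟨h1, h2, -, -⟩ := Pool.Agent.J4H12.Fib.main Q h.divB h.divY hE' hHL' hB h.general
  have hS := sign_of_lefschetzB hE' hHL' hB
  have h3 := splitQ_iff.2 (exists_rat_split hS h1)
  exact ⟨h3, exists_rat_invariants hS h3 h2, fun q =>
    ⟨cyclesExtendQ_of_split h3 q, cyclesExtendK_of_split h3 q⟩⟩

end Pool.Agent.J4H12.VT
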