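import Pool.Agent.J4H12.VT.Strict
import Pool.Agent.J4H12.VT.Split

/-!
# The Lefschetz standard conjecture and the variational Tate conjecture
-/

set_option autoImplicit false

open CategoryTheory AlgebraicGeometry Finset

universe u v

namespace Pool.Agent.J4H12.VT

open Pool.Agent.H914 Pool.Agent.H447 Pool.Agent.W498.Dom VarClass Obj WeilCohomology
  Pool.Agent.J4H44.BM Pool.Agent.W534

variable {k : Type u} [Field k] {𝒱 : VarClass k} {ops : CycleOps 𝒱}
  {W : WeilCohomology.{u, v} ops} {X Y Z F : 𝒱.Obj} {D : X.Cycles} {i : ℕ}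

lemma kunnethAt_of (h : HasFrobenius W Z ∨ KunnethAt W Z i) : KunnethAt W Z i :=
  h.elim (fun h => kunneth_of_frobenius h _) id

/-- **Restriction of cycles to the square of a section, and Künneth components.** -/
theorem form_of_extend {φ : Z ⟶ X} (S : IsSection W φ D) (hD : X.IsCyc 1 D)
    (hHL : HardLefschetz W X D) (hi : i < Z.dim) (hK : KunnethAt W Z i)
    (hV : CyclesExtendQ W (sqMap φ) Z.dim) :
    ∃ w, QOp W X X ((Z.dim : ℤ) - X.dim) w ∧ HasForm W φ i w := by
  obtain ⟨P, hP, hP'⟩ := hK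
  have hγ : W.corr (W.cl _ P) = proj (W.isInternal Z) i := by
    apply gr_ext (W.isInternal Z)
    intro l a ha
    rw [hP' l a ha]
    split_ifs with hl
    · subst hl; rw [proj_same _ ha]
    · rw [proj_ne _ ha hl]
  obtain ⟨w, hw, hs⟩ := hV P hP (S.exists_class hD hHL hi hγ)
  refine ⟨W.corr (W.cl _ w), QOp.gen (p := Z.dim) (by ring) hw, 0, ?_⟩
  rw [← hγ, ← hs, corr_sqMap, zero_smul, zero_add]

/-- The conjecture B from the form of the Künneth components of sections of `X × X`. -/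
theorem lefschetzB_of_forms (hD : X.IsCyc 1 D) (hHL : HardLefschetz W X D)
    (h : ∀ m < X.dim, ∃ (Z : 𝒱.Obj) (φ : Z ⟶ X.prod X) (w : Module.End W.K (W.H (X.prod X))),
      Z.dim = 2 * m + 1 ∧ IsSection W φ (boxCyc ops D D) ∧
        QOp W (X.prod X) (X.prod X) ((Z.dim : ℤ) - (X.prod X).dim) w ∧
          HasForm W φ (2 * m) w) : LefschetzB W X D := by
  apply lefschetzB_of_leftInvK hD hHL
  intro m hm
  obtain ⟨Z, φ, w, hdim, S, hw, hf⟩ := h m hm
  have hbox := boxCyc_mem (ops := ops) hD hD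
  obtain ⟨h2, h3⟩ := hf.rational S hbox (by omega) hw
  have h1 := h3.leftInvK
  rw [dim_prod, hdim, show X.dim + X.dim - (2 * m + 1) = (X.dim - m) + (X.dim - m) - 1 by omega,
    two_mul] at h1
  rw [two_mul] at h2
  rcases dichotomyK_cut hD hD (Nat.sub_le _ _) (by omega) (Nat.sub_le _ _)
    (cut_of_kunnethAt h2) h1 with h4 | h4 <;> exact h4

/-- **One variety: cycles on the squares of the sections.** -/
theorem single_tfae (hD : X.IsCyc 1 D) (hHL : HardLefschetz W X D) {Z : ℕ → 𝒱.Obj}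
    {φ : ∀ m, Z m ⟶ X.prod X} (h : OddSections W X D Z φ) :
    List.TFAE [LefschetzB W X D,
      ∀ m < X.dim, ∀ q, CyclesExtendQ W (sqMap (φ m)) q,
      ∀ m < X.dim, CyclesExtendQ W (sqMap (φ m)) (2 * m + 1)] := by
  have hbox := boxCyc_mem (ops := ops) hD hD
  have hHH := TH125.Gal.hardLefschetz_prod hD hD hHL hHL
  tfae_have 1 → 2 := by
    intro hB m hm
    obtain ⟨-, S, -⟩ := h m hm
    exact extend_square (S.exists_split hbox hHH (X310.Mom.lefschetzB_prod hD hD hHL hHL hB hB))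
  tfae_have 2 → 3 := fun h2 m hm => h2 m hm _
  tfae_have 3 → 1 := by
    intro hV
    apply lefschetzB_of_forms hD hHL
    intro m hm
    obtain ⟨hdim, S, hK⟩ := h m hm
    obtain ⟨w, hw, hf⟩ := form_of_extend S hbox hHH (i := 2 * m) (by omega) (kunnethAt_of hK)
      (by rw [hdim]; exact hV m hm)
    exact ⟨_, _, w, hdim, S, hw, hf⟩
  tfae_finish

/-- **The rational variational Tate conjecture for the squares of the sections of `X × X` implies the
Lefschetz standard conjecture.** -/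
theorem lefschetzB_of_families (hD : X.IsCyc 1 D) (hHL : HardLefschetz W X D)
    {Z F Y : ℕ → 𝒱.Obj} {φ : ∀ m, Z m ⟶ X.prod X} {b : ∀ m, F m ⟶ (Z m).prod (Z m)}
    {j : ∀ m, F m ⟶ Y m} {g : ∀ m, Y m ⟶ (X.prod X).prod (X.prod X)}
    (h : OddSections W X D Z φ) (hf : SquareFamilies W X φ F Y b j g)
    (hV : ∀ m < X.dim, CyclesExtendQ W (j m) (2 * m + 1)) : LefschetzB W X D := by
  apply lefschetzB_of_forms hD hHL
  intro m hm
  obtain ⟨hdim, S, hK⟩ := h m hm
  obtain ⟨w, hw, hf⟩ := (hf m hm).form S (boxCyc_mem (ops := ops) hD hD)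
    (TH125.Gal.hardLefschetz_prod hD hD hHL hHL) (i := 2 * m) (by omega) (kunnethAt_of hK)
    (by rw [hdim]; exact hV m hm)
  exact ⟨_, _, w, hdim, S, hw, hf⟩

/-- **All varieties.** -/
theorem class_tfae {Pol : ∀ X : 𝒱.Obj, X.Cycles → Prop} (h : FrobeniusClass W Pol) :
    List.TFAE [ForAllOf Pol fun X D => LefschetzB W X D,
      ForFibres W Pol fun _ _ j => ∀ q, CyclesExtendQ W j q,
      ForFibres W Pol fun _ _ j => ∀ q, CyclesExtendK W j q,
      ForFibres W Pol fun _ _ j => SplitQ W j,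
      ForSquares W Pol fun _ _ j => ∀ q, CyclesExtendQ W j q] := by
  tfae_have 1 → 4 := by
    rintro hB F Y B j f D E ⟨E', hE'⟩ hj
    exact (fibre_of_total hj (h.div Y E' hE') (h.hard Y E' hE') (hB Y E' hE')).1
  tfae_have 4 → 3 := fun hV F Y B j f D E hY hj =>
    cyclesExtendK_of_split (hV F Y B j f D E hY hj)
  tfae_have 4 → 2 := fun hV F Y B j f D E hY hj =>
    cyclesExtendQ_of_split (hV F Y B j f D E hY hj)
  tfae_have 1 → 5 := by
    intro hB X D hX Z φ hZ hodd S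
    exact extend_square (S.exists_split (h.div X D hX) (h.hard X D hX) (hB X D hX))
  tfae_have 2 → 1 := by
    intro hV X D hX
    have hD := h.div X D hX
    have hHL := h.hard X D hX
    apply lefschetzB_of_forms hD hHL
    intro m hm
    obtain ⟨Z, F, Y, B, φ, b, j, g, f, D', E, hdim, ⟨DZ, hZ⟩, S, Q, hY, hj⟩ :=
      h.sec _ _ (h.prod _ _ _ _ hX hX) (2 * m + 1) ⟨m, rfl⟩ (by rw [dim_prod]; omega)
    obtain ⟨w, hw, hf⟩ := Q.form S (boxCyc_mem (ops := ops) hD hD)
      (TH125.Gal.hardLefschetz_prod hD hD hHL hHL)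
      (i := 2 * m) (by omega) (kunneth_of_frobenius (h.frob Z DZ hZ) _)
      (hV F Y B j f D' E hY hj _)
    exact ⟨_, _, w, hdim, S, hw, hf⟩
  tfae_have 5 → 1 := by
    intro hV X D hX
    have hD := h.div X D hX
    have hHL := h.hard X D hX
    apply lefschetzB_of_forms hD hHL
    intro m hm
    have hXX := h.prod _ _ _ _ hX hX
    obtain ⟨Z, F, Y, B, φ, b, j, g, f, D', E, hdim, ⟨DZ, hZ⟩, S, Q, hY, hj⟩ :=
      h.sec _ _ hXX (2 * m + 1) ⟨m, rfl⟩ (by rw [dim_prod]; omega)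
    obtain ⟨w, hw, hf⟩ := form_of_extend S (boxCyc_mem (ops := ops) hD hD)
      (TH125.Gal.hardLefschetz_prod hD hD hHL hHL) (i := 2 * m) (by omega)
      (kunneth_of_frobenius (h.frob Z DZ hZ) _)
      (hV _ _ hXX Z φ ⟨DZ, hZ⟩ ⟨m, hdim⟩ S _)
    exact ⟨_, _, w, hdim, S, hw, hf⟩
  tfae_have 3 → 1 := by
    intro hV X D hX
    have hD := h.div X D hX
    have hHL := h.hard X D hX
    have hbox := boxCyc_mem (ops := ops) hD hD
    apply lefschetzB_of_leftInvK hD hHL
    intro m hm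
    obtain ⟨Z, F, Y, B, φ, b, j, g, f, D', E, hdim, ⟨DZ, hZ⟩, S, Q, hY, hj⟩ :=
      h.sec _ _ (h.prod _ _ _ _ hX hX) (2 * m + 1) ⟨m, rfl⟩ (by rw [dim_prod]; omega)
    obtain ⟨w, hw, hf⟩ := Q.formK S hbox (TH125.Gal.hardLefschetz_prod hD hD hHL hHL)
      (i := 2 * m) (by omega) (kunneth_of_frobenius (h.frob Z DZ hZ) _)
      (hV F Y B j f D' E hY hj _)
    have h1 := hf.leftInvK S hbox (by omega) hw
    rw [dim_prod, hdim, show X.dim + X.dim - (2 * m + 1) = (X.dim - m) + (X.dim - m) - 1 by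
      omega, two_mul] at h1
    have hN : NumNil W (X.prod X) := numNil_of_sign (sign_of_kunnethStd
      (kunneth_of_frobenius (h.frob _ _ (h.prod _ _ _ _ hX hX))))
    rcases dichotomyK hD hD (Nat.sub_le _ _) (by omega) (Nat.sub_le _ _) hN h1 with h4 | h4 <;>
      exact h4
  tfae_finish

end Pool.Agent.J4H12.VT
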