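import Pool.Agent.J4H44.BM.Fit
import Pool.Agent.J4H12.NB.Idem

/-!
# Rational projectors from projectors with coefficients
-/

set_option autoImplicit false

open Finset Polynomial Module

namespace Pool.Agent.J4H12.VT

open Pool.Agent.H914 Pool.Agent.H447 Pool.Agent.J4H44.BM

variable {K : Type*} [Field K] [CharZero K] {V : Type*} [AddCommGroup V] [Module K V]
  [Module.Finite K V]

/-- A set of operators, closed under addition, multiplication and rational multiples, with values
in a subspace `M` and with rational traces. -/
structure RatSys (J : Set (Module.End K V)) (M : Submodule K V) : Prop where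
  zero : 0 ∈ J
  add : ∀ x ∈ J, ∀ y ∈ J, x + y ∈ J
  smul : ∀ (q : ℚ), ∀ x ∈ J, (q : K) • x ∈ J
  mul : ∀ x ∈ J, ∀ y ∈ J, x * y ∈ J
  maps : ∀ x ∈ J, ∀ v, x v ∈ M
  trace : ∀ x ∈ J, ∃ q : ℚ, LinearMap.trace K V x = q

namespace RatSys

variable {J : Set (Module.End K V)} {M : Submodule K V} (h : RatSys J M)
include h

omit [CharZero K] [Module.Finite K V] in
lemma sub {x y : Module.End K V} (hx : x ∈ J) (hy : y ∈ J) : x - y ∈ J := by
  have h1 := h.add x hx _ (h.smul (-1) y hy)
  push_cast at h1
  rwa [neg_one_smul, ← sub_eq_add_neg] at h1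

omit [Module.Finite K V] in
lemma ev_mul {x : Module.End K V} (hx : x ∈ J) (p : ℚ[X]) : ev x p * x ∈ J := by
  induction p using Polynomial.induction_on' with
  | add p q hp hq => rw [map_add, add_mul]; exact h.add _ hp _ hq
  | monomial n a =>
    have hpow : ∀ n : ℕ, x ^ (n + 1) ∈ J := by
      intro n
      induction n with
      | zero => rwa [zero_add, pow_one]
      | succ n ih => rw [pow_succ]; exact h.mul _ ih _ hx
    rw [← C_mul_X_pow_eq_monomial, map_mul, ev_C, map_pow, ev_X, smul_mul_assoc, one_mul,
      smul_mul_assoc, ← pow_succ]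
    exact h.smul a _ (hpow n)

omit [CharZero K] [Module.Finite K V] in
lemma pow {x : Module.End K V} (hx : x ∈ J) (n : ℕ) : x ^ (n + 1) ∈ J := by
  induction n with
  | zero => rwa [zero_add, pow_one]
  | succ n ih => rw [pow_succ]; exact h.mul _ ih _ hx

/-- **Rational projectors.** If a linear combination with coefficients in `K` of elements of `J` is
the identity on `M` then an element of `J` is the identity on `M`. -/
theorem exists_rat {p : Module.End K V} (hp : p ∈ Submodule.span K J) (hpM : ∀ v ∈ M, p v = v) :
    ∃ e ∈ J, ∀ v ∈ M, e v = v := by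
  set S : Set ℕ := {m | ∃ e ∈ J, e * e = e ∧ finrank K (LinearMap.range e) = m} with hS
  have hne : S.Nonempty := ⟨_, 0, h.zero, by simp, rfl⟩
  have hbd : BddAbove S := ⟨finrank K V, by
    rintro m ⟨z, -, -, rfl⟩
    exact Submodule.finrank_le _⟩
  obtain ⟨e, he, hee, hrk⟩ := Nat.sSup_mem hne hbd
  refine ⟨e, he, ?_⟩
  -- the corners are nilpotent
  have key : ∀ y ∈ J, LinearMap.trace K V y = LinearMap.trace K V (e * y) := by
    intro y hy
    set x : Module.End K V := y - e * y - y * e + e * y * e with hx
    have hxJ : x ∈ J := h.add _ (h.sub (h.sub hy (h.mul _ he _ hy)) (h.mul _ hy _ he)) _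
      (h.mul _ (h.mul _ he _ hy) _ he)
    have hex : e * x = 0 := by
      have e1 : e * x = (e * y - e * e * y) - (e * y * e - e * e * y * e) := by
        rw [hx]; noncomm_ring
      rw [e1, hee]; abel
    have hxe : x * e = 0 := by
      have e1 : x * e = (y * e - y * (e * e)) - (e * y * e - e * y * (e * e)) := by
        rw [hx]; noncomm_ring
      rw [e1, hee]; abel
    obtain ⟨P, hP, k, hk⟩ := rat_fitting (x := x) fun r => h.trace _ (h.pow hxJ r)
    set g : Module.End K V := ev x P * x with hg
    have hcomm : Commute (ev x P) x := by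
      have : Commute (ev x P) (ev x (X : ℚ[X])) := by
        rw [Commute, SemiconjBy, ← map_mul, ← map_mul, mul_comm]
      rwa [ev_X] at this
    have hgJ : g ∈ J := h.ev_mul hxJ P
    have heg : e * g = 0 := by rw [hg, hcomm.eq, ← mul_assoc, hex, zero_mul]
    have hge : g * e = 0 := by rw [hg, mul_assoc, hxe, mul_zero]
    have hidem : (e + g) * (e + g) = e + g := by
      rw [add_mul, mul_add, mul_add, hee, hP, heg, hge]; abel
    have hmem : finrank K (LinearMap.range (e + g)) ∈ S :=
      ⟨e + g, h.add _ he _ hgJ, hidem, rfl⟩
    have hle := le_csSup hbd hmem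
    rw [← hrk] at hle
    have htr1 : (finrank K (LinearMap.range (e + g)) : K) =
        finrank K (LinearMap.range e) + finrank K (LinearMap.range g) := by
      rw [← trace_idem hidem, ← trace_idem hee, ← trace_idem hP, map_add]
    have htr2 : finrank K (LinearMap.range (e + g)) =
        finrank K (LinearMap.range e) + finrank K (LinearMap.range g) := by
      exact_mod_cast htr1
    have h0 : finrank K (LinearMap.range g) = 0 := by omega
    have hg0 : g = 0 := by
      apply eq_zero_of_idem_of_trace_eq_zero hP
      rw [trace_idem hP, h0, Nat.cast_zero]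
    rw [hg0, sub_zero, mul_one] at hk
    have h3 : LinearMap.trace K V x = 0 := trace_nilp ⟨k, hk⟩
    have h4 : LinearMap.trace K V (e * y * e) = LinearMap.trace K V (e * y) := by
      rw [mul_assoc, LinearMap.trace_mul_comm, mul_assoc, hee, LinearMap.trace_mul_comm]
    have h5 : LinearMap.trace K V (y * e) = LinearMap.trace K V (e * y) :=
      LinearMap.trace_mul_comm K y e
    rw [hx, map_add, map_sub, map_sub, h4, h5] at h3
    linear_combination h3
  have hspan : ∀ z ∈ Submodule.span K J, LinearMap.trace K V z = LinearMap.trace K V (e * z) := by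
    intro z hz
    induction hz using Submodule.span_induction with
    | mem y hy => exact key y hy
    | zero => simp
    | add x y _ _ hx hy => rw [map_add, mul_add, map_add, hx, hy]
    | smul c x _ hx => rw [map_smul, mul_smul_comm, map_smul, hx]
  have hmaps : ∀ z ∈ Submodule.span K J, ∀ v, z v ∈ M := by
    intro z hz v
    induction hz using Submodule.span_induction with
    | mem y hy => exact h.maps y hy v
    | zero => exact Submodule.zero_mem _
    | add x y _ _ hx hy => exact Submodule.add_mem _ hx hy
    | smul c x _ hx => exact Submodule.smul_mem _ _ hx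
  have hpp : p * p = p := by
    apply LinearMap.ext
    intro v
    rw [Module.End.mul_apply]
    exact hpM _ (hmaps p hp v)
  have hpe : p * e = e := by
    apply LinearMap.ext
    intro v
    rw [Module.End.mul_apply]
    exact hpM _ (h.maps e he v)
  have h1 : (finrank K (LinearMap.range p) : K) = finrank K (LinearMap.range e) := by
    rw [← trace_idem hpp, hspan p hp, LinearMap.trace_mul_comm, hpe, trace_idem hee]
  have h2 : finrank K (LinearMap.range e) = finrank K (LinearMap.range p) := by
    exact_mod_cast h1.symm
  have hle : LinearMap.range e ≤ LinearMap.range p := by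
    rintro _ ⟨v, rfl⟩
    exact ⟨e v, hpM _ (h.maps e he v)⟩
  have heq := Submodule.eq_of_le_of_finrank_eq hle h2
  intro v hv
  have h3 : v ∈ LinearMap.range e := by
    rw [heq]
    exact ⟨v, hpM v hv⟩
  obtain ⟨u, rfl⟩ := h3
  rw [← Module.End.mul_apply, hee]

end RatSys

end Pool.Agent.J4H12.VT
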